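import Pool.Agent.W_68f289_h94.Fin13

/-!
Normal closures of small index in the groups of Hamiltonian homeomorphisms and of hameomorphisms of
the ball.
-/

open Set Metric Topology Filter commutatorElement
open scoped NNReal ContDiff

namespace Pool.Agent.W_68f289_h94

open Pool.Agent.W_MP_68f289_gt Pool.Agent.W_68f289_h35 Pool.Agent.W_68f289_h51 Pool.Agent.W_68f289_h58

lemma mk_quot_le {Γ : Type} [Group Γ] {M N : Subgroup Γ} (h : M ≤ N) :
    Cardinal.mk (Γ ⧸ N) ≤ Cardinal.mk (Γ ⧸ M) := by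
  refine Cardinal.mk_le_of_surjective (f := Quotient.map' id fun a b h' => ?_) ?_
  · rw [QuotientGroup.leftRel_apply] at h' ⊢
    exact h h'
  · intro a
    obtain ⟨g, rfl⟩ := QuotientGroup.mk_surjective a
    exact ⟨(g : Γ ⧸ M), rfl⟩

/-- the normal closure of the copies has small index only if it is everything -/
theorem N_top_of_small {Γ : Type} [Group Γ] (S : Semi Γ) {r : ℝ} (r0 : 0 < r) (r1 : r ≤ 1)
    (hc : Cardinal.mk (Γ ⧸ S.N r) < Cardinal.continuum) : S.N r = ⊤ := by
  have hn := S.normal_N r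
  refine top_of_index S (S.N r) (fun u u0 u1 g hg => ?_) (fun b u _ _ _ => ⟨r, r0, r1, ?_⟩) hc
  · have hn' : ((S.N r).comap (S.σ u)).Normal := hn.comap _
    have h1 : S.N r ≤ (S.N r).comap (S.σ u) := by
      refine Subgroup.normalClosure_le_normal ?_
      rintro _ ⟨x, rfl⟩
      change S.σ u (S.σ r x) ∈ S.N r
      rw [← S.mul u r u0 u1 r0 r1, mul_comm, S.mul r u r0 r1 u0 u1]
      exact Subgroup.subset_normalClosure ⟨_, rfl⟩
    exact h1 hg
  · exact Subgroup.subset_normalClosure ⟨b, rfl⟩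

/-- a set of fewer elements than the continuum in the image of a copy, the normal closure of which has
small index -/
theorem small_of_set {Γ : Type} [Group Γ] {S : Semi Γ} {A : Set Γ}
    (hA : Cardinal.mk A < Cardinal.continuum) {r : ℝ} (hAr : A ⊆ ((S.σ r).range : Set Γ))
    (hc : Cardinal.mk (Γ ⧸ Subgroup.normalClosure A) < Cardinal.continuum) :
    Cardinal.mk (Γ ⧸ commutator Γ) < Cardinal.continuum ∧
      Cardinal.mk (Γ ⧸ S.N r) < Cardinal.continuum := by
  have hn := S.normal_N r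
  constructor
  · -- the subgroup generated by the image of `A` in the abelianization
    set B : Subgroup (Abelianization Γ) := Subgroup.closure (Abelianization.of '' A) with hB
    have hBc : Cardinal.mk B < Cardinal.continuum := by
      have h1 := mk_closure_le (Abelianization.of '' A)
      refine h1.trans_lt (max_lt (lt_of_le_of_lt Cardinal.mk_image_le hA) ?_)
      exact Cardinal.aleph0_lt_continuum
    have hNB : Subgroup.normalClosure A ≤ B.comap Abelianization.of := by
      have : (B.comap (Abelianization.of : Γ →* Abelianization Γ)).Normal :=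
        (inferInstance : B.Normal).comap _
      exact Subgroup.normalClosure_le_normal fun a ha => Subgroup.subset_closure ⟨a, ha, rfl⟩
    have h2 := (mk_quot_le hNB).trans_lt hc
    have h3 : Cardinal.mk (Abelianization Γ ⧸ B) ≤
        Cardinal.mk (Γ ⧸ B.comap (Abelianization.of : Γ →* Abelianization Γ)) := by
      refine Cardinal.mk_le_of_surjective (f := Quotient.map' (Abelianization.of : Γ →* _)
        fun a b h' => ?_) ?_
      · rw [QuotientGroup.leftRel_apply] at h' ⊢
        rw [← map_inv, ← map_mul]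
        exact h'
      · intro a
        obtain ⟨x, rfl⟩ := QuotientGroup.mk_surjective a
        obtain ⟨g, rfl⟩ := QuotientGroup.mk_surjective x
        exact ⟨(g : Γ ⧸ B.comap (Abelianization.of : Γ →* Abelianization Γ)), rfl⟩
    have h4 : Cardinal.mk (Abelianization Γ) = Cardinal.mk (Abelianization Γ ⧸ B) * Cardinal.mk B := by
      rw [Cardinal.mul_def]
      exact Cardinal.mk_congr Subgroup.groupEquivQuotientProdSubgroup
    change Cardinal.mk (Abelianization Γ) < Cardinal.continuum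
    rw [h4]
    exact Cardinal.mul_lt_of_lt Cardinal.aleph0_le_continuum (h3.trans_lt h2) hBc
  · refine (mk_quot_le ?_).trans_lt hc
    exact Subgroup.normalClosure_le_normal fun a ha => Subgroup.subset_normalClosure (hAr ha)

variable {n : ℕ} {L : Subgroup (E n ≃ₜ E n)}

lemma copies_eq (h : Gd L) {r : ℝ} (r0 : 0 < r) (r1 : r ≤ 1) : {u : Ty L | ∃ g : Ty L,
    ∀ x : E n, (u : E n ≃ₜ E n) (r • x) = r • (g : E n ≃ₜ E n) x} =
    (((semi h).σ r).range : Set (Ty L)) := by
  ext u
  constructor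
  · rintro ⟨g, hg⟩
    exact ⟨g, eq_sg h r0 r1 hg⟩
  · rintro ⟨g, rfl⟩
    exact ⟨g, fun x => sg_smul h r0 r1 g x⟩

/-- finitely many elements are copies with one factor -/
lemma exists_radius (h : Gd L) {A : Set (Ty L)} (hA : A.Finite) :
    ∃ r : ℝ, 0 < r ∧ r < 1 ∧ A ⊆ (((semi h).σ r).range : Set (Ty L)) := by
  induction A, hA using Set.Finite.induction_on with
  | empty => exact ⟨1 / 2, by norm_num, by norm_num, empty_subset _⟩
  | @insert a s _ _ ih =>
    obtain ⟨r, r0, r1, hr⟩ := ih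
    obtain ⟨t, t0, t1, ht⟩ := (semi h).ex a
    have key : ∀ u v : ℝ, 0 < u → u ≤ v → v ≤ 1 →
        (((semi h).σ u).range : Set (Ty L)) ⊆ ((semi h).σ v).range := by
      rintro u v u0 uv v1 _ ⟨x, rfl⟩
      have v0 : 0 < v := u0.trans_le uv
      have e : v * (u / v) = u := by field_simp
      refine ⟨(semi h).σ (u / v) x, ?_⟩
      rw [← (semi h).mul v (u / v) v0 v1 (by positivity) ((div_le_one v0).2 uv), e]
    refine ⟨max r t, lt_max_of_lt_left r0, max_lt r1 t1, insert_subset ?_ ?_⟩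
    · exact key t _ t0 (le_max_right _ _) (max_lt r1 t1).le ht
    · exact hr.trans (key r _ r0 (le_max_left _ _) (max_lt r1 t1).le)

/-- the theorem for the two groups -/
theorem fin35 (hn : 1 ≤ n) (h : Gd L) (I : Ip (semi h)) (T : Sft (semi h)) :
    [IsSimpleGroup (Ty L),
      ∃ T : Set (Ty L), T.Finite ∧
        Cardinal.mk (Ty L ⧸ Subgroup.normalClosure T) < Cardinal.continuum,
      ¬ ∃ N : ℕ → Subgroup (Ty L), Monotone N ∧ (∀ k, (N k).Normal ∧ N k ≠ ⊤) ∧
        ∀ g, ∃ k, g ∈ N k,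
      Cardinal.mk {N : Subgroup (Ty L) // N.Normal} < Cardinal.continuum,
      Cardinal.mk (Ty L ⧸ commutator (Ty L)) < Cardinal.continuum ∧ ∃ r : ℝ, 0 < r ∧ r < 1 ∧
        Cardinal.mk (Ty L ⧸ Subgroup.normalClosure {u : Ty L | ∃ g : Ty L,
          ∀ x : E n, (u : E n ≃ₜ E n) (r • x) = r • (g : E n ≃ₜ E n) x}) < Cardinal.continuum,
      ∃ M : Subgroup (Ty L), M.Normal ∧ M ≠ ⊥ ∧
        (∀ N : Subgroup (Ty L), N.Normal → N ≠ ⊥ → M ≤ N) ∧
        Cardinal.mk (Ty L ⧸ M) < Cardinal.continuum].TFAE := by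
  obtain ⟨h1, -⟩ := fin13 hn h I T
  have h5 : IsSimpleGroup (Ty L) ↔ (commutator (Ty L) = ⊤ ∧ ∃ r : ℝ, 0 < r ∧ r < 1 ∧
      Subgroup.normalClosure {u : Ty L | ∃ g : Ty L,
        ∀ x : E n, (u : E n ≃ₜ E n) (r • x) = r • (g : E n ≃ₜ E n) x} = ⊤) := h1.out 0 4
  tfae_have 1 ↔ 3 := h1.out 0 2
  tfae_have 1 ↔ 4 := h1.out 0 3
  tfae_have 1 ↔ 6 := h1.out 0 5
  tfae_have 1 → 2 := by
    intro hs
    obtain ⟨A, hA, hA'⟩ := (h1.out 0 1).1 hs
    exact ⟨A, hA, mk_top_lt hA'⟩
  tfae_have 2 → 5 := by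
    rintro ⟨A, hA, hc⟩
    obtain ⟨r, r0, r1, hr⟩ := exists_radius h hA
    obtain ⟨h2, h3⟩ := small_of_set (hA.lt_aleph0.trans Cardinal.aleph0_lt_continuum) hr hc
    refine ⟨h2, r, r0, r1, ?_⟩
    rw [copies_eq h r0 r1.le]
    exact h3
  tfae_have 5 → 1 := by
    rintro ⟨h2, r, r0, r1, h3⟩
    refine h5.2 ⟨perfect_of_small T h2, r, r0, r1, ?_⟩
    rw [copies_eq h r0 r1.le] at h3 ⊢
    exact N_top_of_small (semi h) r0 r1.le h3
  tfae_finish

end Pool.Agent.W_68f289_h94
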