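import Mathlib

/-!
Meagre subgroups of Polish groups have at least continuum many cosets (Kuratowski, Mycielski).
-/

open Set Metric Topology Filter

namespace Pool.Agent.W_68f289_h35c

section finite

variable {X : Type*} [MetricSpace X] [CompleteSpace X]

/-- the pairs of distinct coordinates of a dense set of finite families lie in `W` -/
lemma dense_pair {ι : Type*} [Fintype ι] [DecidableEq ι] {W : Set (X × X)} (hd : Dense W)
    {s t : ι} (hst : s ≠ t) : Dense {x : ι → X | (x s, x t) ∈ W} := by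
  rw [dense_iff_inter_open]
  rintro O hO ⟨x, hx⟩
  set φ : X × X → (ι → X) := fun p => Function.update (Function.update x s p.1) t p.2 with hφ
  have hφc : Continuous φ := by
    have h1 : Continuous fun p : X × X => Function.update x s p.1 :=
      (continuous_const (y := x)).update s continuous_fst
    exact h1.update t continuous_snd
  have hx' : φ (x s, x t) = x := by
    rw [hφ]
    simp
  obtain ⟨p, hp1, hp2⟩ := hd.inter_open_nonempty (φ ⁻¹' O) (hO.preimage hφc)
    ⟨(x s, x t), by rw [mem_preimage, hx']; exact hx⟩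
  refine ⟨φ p, hp1, ?_⟩
  have e1 : φ p s = p.1 := by
    rw [hφ]
    simp [Function.update_of_ne hst]
  have e2 : φ p t = p.2 := by
    rw [hφ]
    simp
  change (φ p s, φ p t) ∈ W
  rw [e1, e2]
  exact hp2

/-- finitely many points near given points, all pairs of which lie in `W` -/
lemma exists_points {ι : Type*} [Finite ι] {W : Set (X × X)} (ho : IsOpen W) (hd : Dense W)
    (y : ι → X) {ε : ℝ} (hε : 0 < ε) :
    ∃ x : ι → X, (∀ s, dist (x s) (y s) < ε) ∧ ∀ s t, s ≠ t → (x s, x t) ∈ W := by
  classical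
  have := Fintype.ofFinite ι
  have h1 : Dense (⋂ p : {p : ι × ι // p.1 ≠ p.2}, {x : ι → X | (x p.1.1, x p.1.2) ∈ W}) := by
    refine dense_iInter_of_isOpen (fun p => ?_) fun p => dense_pair hd p.2
    exact ho.preimage ((continuous_apply _).prodMk (continuous_apply _))
  obtain ⟨x, hx1, hx2⟩ := h1.inter_open_nonempty (ball y ε) isOpen_ball ⟨y, mem_ball_self hε⟩
  refine ⟨x, fun s => (dist_pi_lt_iff hε).1 hx1 s, fun s t hst => ?_⟩
  exact mem_iInter.1 hx2 ⟨(s, t), hst⟩

/-- the restriction to the first `m` coordinates -/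
def rst (m : ℕ) (a : ℕ → Bool) : Fin m → Bool := fun i => a i

/-- the extension by `false` -/
def ext (m : ℕ) (s : Fin m → Bool) : ℕ → Bool := fun i => if h : i < m then s ⟨i, h⟩ else false

lemma rst_cont (m : ℕ) : Continuous (rst m) := continuous_pi fun i => continuous_apply _

lemma ext_rst {m : ℕ} {a : ℕ → Bool} {i : ℕ} (hi : i < m) : ext m (rst m a) i = a i := by
  unfold ext rst
  rw [dif_pos hi]

/-- continuous functions are uniformly close to their values at the extensions -/
lemma exists_level (f : C(ℕ → Bool, X)) {ε : ℝ} (hε : 0 < ε) (i : ℕ) : ∃ m, i < m ∧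
    ∀ a : ℕ → Bool, dist (f a) (f (ext m (rst m a))) < ε := by
  by_contra hcon
  push Not at hcon
  choose a ha using fun k : ℕ => hcon (i + 1 + k) (by omega)
  obtain ⟨b, -, φ, hφ, hb⟩ := isCompact_univ.tendsto_subseq (x := a) fun _ => mem_univ _
  have h1 : Tendsto (fun k => ext (i + 1 + φ k) (rst (i + 1 + φ k) (a (φ k)))) atTop (𝓝 b) := by
    rw [tendsto_pi_nhds] at hb ⊢
    intro j
    refine (hb j).congr' ?_
    filter_upwards [eventually_ge_atTop j] with k hk
    have h2 : k ≤ φ k := hφ.id_le k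
    exact (ext_rst (by omega)).symm
  have h2 : Tendsto (fun k => dist (f (a (φ k))) (f (ext (i + 1 + φ k)
      (rst (i + 1 + φ k) (a (φ k)))))) atTop (𝓝 (dist (f b) (f b))) :=
    ((f.continuous.tendsto b).comp hb).dist ((f.continuous.tendsto b).comp h1)
  rw [dist_self] at h2
  have h3 := ge_of_tendsto' h2 fun k => ha (φ k)
  linarith

/-- the set of the functions which map the pairs with different coordinates `i` into `W` -/
def OO (W : Set (X × X)) (i : ℕ) : Set C(ℕ → Bool, X) :=
  {f | ∀ a b : ℕ → Bool, a i ≠ b i → (f a, f b) ∈ W}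

lemma OO_open {W : Set (X × X)} (ho : IsOpen W) (i : ℕ) : IsOpen (OO W i) := by
  have hK : IsCompact {p : (ℕ → Bool) × (ℕ → Bool) | p.1 i ≠ p.2 i} := by
    refine IsClosed.isCompact ?_
    have h1 : Continuous fun p : (ℕ → Bool) × (ℕ → Bool) => (p.1 i, p.2 i) := by fun_prop
    exact (isClosed_discrete {q : Bool × Bool | q.1 ≠ q.2}).preimage h1
  rw [isOpen_iff_eventually]
  intro f hf
  have h1 := hK.eventually_forall_of_forall_eventually (x₀ := f)
    (P := fun (g : C(ℕ → Bool, X)) (p : (ℕ → Bool) × (ℕ → Bool)) => (g p.1, g p.2) ∈ W) (by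
      intro p hp
      have hc : Continuous fun z : C(ℕ → Bool, X) × ((ℕ → Bool) × (ℕ → Bool)) =>
          (z.1 z.2.1, z.1 z.2.2) := by fun_prop
      exact hc.continuousAt.eventually (ho.mem_nhds (hf p.1 p.2 hp)))
  filter_upwards [h1] with g hg a b hab
  exact hg (a, b) hab

lemma OO_dense {W : Set (X × X)} (ho : IsOpen W) (hd : Dense W) (i : ℕ) : Dense (OO W i) := by
  intro f
  rw [Metric.mem_closure_iff]
  intro ε hε
  obtain ⟨m, hm, hf⟩ := exists_level f (ε := ε / 3) (by positivity) i
  obtain ⟨x, hx1, hx2⟩ := exists_points ho hd (fun s : Fin m → Bool => f (ext m s))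
    (ε := ε / 3) (by positivity)
  have hcx : Continuous x := continuous_of_discreteTopology
  refine ⟨⟨fun a => x (rst m a), hcx.comp (rst_cont m)⟩, fun a b hab => ?_, ?_⟩
  · refine hx2 _ _ fun e => hab ?_
    exact congrFun e ⟨i, hm⟩
  · rw [ContinuousMap.dist_lt_iff hε]
    intro a
    change dist (f a) (x (rst m a)) < ε
    have h1 := dist_triangle (f a) (f (ext m (rst m a))) (x (rst m a))
    have h2 := hf a
    have h3 := hx1 (rst m a)
    rw [dist_comm] at h3
    linarith

/-- the theorem of Kuratowski and Mycielski -/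
theorem mycielski [Nonempty X] {κ : Type*} [Countable κ] {W : κ → Set (X × X)}
    (ho : ∀ k, IsOpen (W k)) (hd : ∀ k, Dense (W k)) :
    ∃ f : (ℕ → Bool) → X, ∀ a b, a ≠ b → ∀ k, (f a, f b) ∈ W k := by
  have h1 : Dense (⋂ p : κ × ℕ, OO (W p.1) p.2) :=
    dense_iInter_of_isOpen (fun p => OO_open (ho p.1) p.2) fun p => OO_dense (ho p.1) (hd p.1) p.2
  obtain ⟨x⟩ := ‹Nonempty X›
  have : Nonempty C(ℕ → Bool, X) := ⟨ContinuousMap.const _ x⟩
  obtain ⟨f, hf⟩ := h1.nonempty
  refine ⟨f, fun a b hab k => ?_⟩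
  obtain ⟨i, hi⟩ := Function.ne_iff.1 hab
  exact mem_iInter.1 hf (k, i) a b hi

end finite

/-- a meagre subgroup of a Polish group has at least continuum many cosets -/
theorem exists_cantor {X : Type*} [TopologicalSpace X] [Group X] [IsTopologicalGroup X]
    [PolishSpace X] {N : Subgroup X} (hN : IsMeagre (N : Set X)) :
    ∃ f : (ℕ → Bool) → X, ∀ a b, a ≠ b → (f a)⁻¹ * f b ∉ N := by
  obtain ⟨S, hS1, hS2, hS3, hS4⟩ := mem_residual_iff.1 hN
  have : Countable S := hS3.to_subtype
  let _ := TopologicalSpace.upgradeIsCompletelyMetrizable X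
  obtain ⟨f, hf⟩ := mycielski (X := X) (W := fun t : S => {p : X × X | p.1⁻¹ * p.2 ∈ (t : Set X)})
    (fun t => (hS1 t t.2).preimage (continuous_fst.inv.mul continuous_snd))
    (fun t => (hS2 t t.2).preimage
      (isOpenMap_snd.comp (Homeomorph.shearMulRight X).symm.isOpenMap))
  refine ⟨f, fun a b hab h => ?_⟩
  exact hS4 (mem_sInter.2 fun t ht => hf a b hab ⟨t, ht⟩) h

end Pool.Agent.W_68f289_h35c
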