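import Pool.Agent.W_68f289_h51n.Gc4
import Pool.Agent.W_68f289_h51n.Gc3
import Pool.Agent.W_68f289_h35c.Myc35

/-!
Subgroups of index less than the continuum.
-/

open Set Metric Topology Filter

namespace Pool.Agent.W_68f289_h51n

open Pool.Agent.W_MP_68f289_gt

variable {n : ℕ} {R : ℝ}

/-- the elements of `N` in the Polish group, as a subgroup -/
def NPs (N : Subgroup (G n)) (R : ℝ) : Subgroup ↥((Gn n R).map (res (n := n))) :=
  (N.map res).subgroupOf ((Gn n R).map res)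

/-- a subgroup of index less than the continuum is not meagre -/
theorem nonmeagre_of_lt {N : Subgroup (G n)}
    (hc : Cardinal.mk (G n ⧸ N) < Cardinal.continuum) (hR0 : 0 ≤ R) (hR1 : R < 1) :
    ¬ IsMeagre (NX N R) := by
  rw [meagre_iff hR0 hR1]
  intro hM
  have hcl : IsClosed (((Gn n R).map res : Subgroup (HG (Zn n))) : Set (HG (Zn n))) :=
    closed_Gn hR0 hR1
  have hP : PolishSpace ↥((Gn n R).map (res (n := n))) := hcl.polishSpace
  have e0 : (NPs N R : Set ↥((Gn n R).map (res (n := n)))) = NP N R := by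
    ext p
    constructor
    · rintro ⟨g, hg, hp⟩
      exact ⟨g, hg, hp⟩
    · rintro ⟨g, hg, hp⟩
      exact ⟨g, hg, hp⟩
  have hM' : IsMeagre (NPs N R : Set ↥((Gn n R).map (res (n := n)))) := by
    rw [e0]
    exact hM
  obtain ⟨f, hf⟩ := Pool.Agent.W_68f289_h35c.exists_cantor hM'
  choose g hg using fun a => (f a).2
  have hinj : Function.Injective fun a => (QuotientGroup.mk (g a) : G n ⧸ N) := by
    intro a b hab
    by_contra hne
    refine hf a b hne ⟨(g a)⁻¹ * g b, QuotientGroup.eq.1 hab, ?_⟩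
    change res ((g a)⁻¹ * g b) = (f a : HG (Zn n))⁻¹ * (f b : HG (Zn n))
    rw [map_mul, map_inv, (hg a).2, (hg b).2]
  have h1 := Cardinal.mk_le_of_injective hinj
  have h2 : Cardinal.mk (ℕ → Bool) = Cardinal.continuum := by simp
  rw [h2] at h1
  exact absurd hc (not_lt.2 h1)

lemma mk_lt_of_top {Γ : Type*} [Group Γ] {M : Subgroup Γ} (h : M = ⊤) :
    Cardinal.mk (Γ ⧸ M) < Cardinal.continuum := by
  subst h
  have h1 : Subsingleton (Γ ⧸ (⊤ : Subgroup Γ)) := QuotientGroup.subsingleton_quotient_top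
  exact (Cardinal.le_one_iff_subsingleton.2 h1).trans_lt
    (Cardinal.one_lt_aleph0.trans Cardinal.aleph0_lt_continuum)

/-- From the implication for meagre sets to the three equivalent properties. -/
theorem tfae_of_lt {N : Subgroup (G n)} (h : (∀ R₀ : ℝ, R₀ < 1 → ∃ R : ℝ, R₀ < R ∧ R < 1 ∧
    ¬ IsMeagre (NX N R)) → N = ⊤) :
    [N = ⊤, Cardinal.mk (G n ⧸ N) < Cardinal.continuum,
      ¬ ∃ R₀ : ℝ, R₀ < 1 ∧ ∀ R : ℝ, R₀ < R → R < 1 → IsMeagre (NX N R)].TFAE := by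
  tfae_have 1 → 2 := mk_lt_of_top
  tfae_have 2 → 3 := by
    rintro hc ⟨R₀, hR₀, hM⟩
    have h1 : max R₀ 0 < 1 := max_lt hR₀ zero_lt_one
    have h2 := le_max_left R₀ 0
    have h3 := le_max_right R₀ 0
    exact nonmeagre_of_lt hc (R := (max R₀ 0 + 1) / 2) (by linarith) (by linarith)
      (hM _ (by linarith) (by linarith))
  tfae_have 3 → 1 := by
    intro h3
    refine h fun R₀ hR₀ => ?_
    push Not at h3
    obtain ⟨R, h4, h5, h6⟩ := h3 R₀ hR₀
    exact ⟨R, h4, h5, h6⟩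
  tfae_finish

/-- the three equivalent properties -/
theorem subgroup_tfae_lt {N : Subgroup (G n)} (hN : N = (Hameo n).subgroupOf (HamBar n) ∨
    N = commutator (G n) ∨ N = FrL (HamBar n) ∨
    ∃ T : Set (G n), T.Countable ∧ N = Subgroup.normalClosure T) :
    [N = ⊤, Cardinal.mk (G n ⧸ N) < Cardinal.continuum,
      ¬ ∃ R₀ : ℝ, R₀ < 1 ∧ ∀ R : ℝ, R₀ < R → R < 1 → IsMeagre (NX N R)].TFAE := by
  rcases hN with rfl | rfl | rfl | ⟨T, hT, rfl⟩
  · exact tfae_of_lt hameo_top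
  · exact tfae_of_lt com_top
  · exact tfae_of_lt fr_top
  · exact tfae_of_lt (conj_top hT)

theorem countable_iff_lt {N : Subgroup (G n)} (hN : N = (Hameo n).subgroupOf (HamBar n) ∨
    N = commutator (G n) ∨ N = FrL (HamBar n) ∨
    ∃ T : Set (G n), T.Countable ∧ N = Subgroup.normalClosure T) :
    Cardinal.mk (G n ⧸ N) < Cardinal.continuum ↔ Countable (G n ⧸ N) :=
  ((subgroup_tfae_lt hN).out 1 0).trans ((subgroup_tfae hN).out 0 1)

/-- the criteria for simplicity -/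
theorem simple_tfae_lt (hn : 1 ≤ n) : [IsSimpleGroup (G n),
      ∃ T : Set (G n), T.Finite ∧
        Cardinal.mk (G n ⧸ Subgroup.normalClosure T) < Cardinal.continuum,
      ∃ h : G n, h ≠ 1 ∧ (∃ a b : G n, IsHam n (a : E n ≃ₜ E n) ∧ IsHam n (b : E n ≃ₜ E n) ∧
        h = a * b * a⁻¹ * b⁻¹) ∧
        Cardinal.mk (G n ⧸ Subgroup.normalClosure {h}) < Cardinal.continuum,
      ∀ h : G n, h ≠ 1 → BddGen n (Conj {h})].TFAE := by
  have h0 := simple_tfae (n := n) hn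
  tfae_have 1 ↔ 4 := h0.out 0 3
  tfae_have 1 ↔ 2 := by
    refine (h0.out 0 1).trans ⟨?_, ?_⟩
    · rintro ⟨T, hT, hc⟩
      exact ⟨T, hT, (countable_iff_lt (Or.inr (Or.inr (Or.inr ⟨T, hT.countable, rfl⟩)))).2 hc⟩
    · rintro ⟨T, hT, hc⟩
      exact ⟨T, hT, (countable_iff_lt (Or.inr (Or.inr (Or.inr ⟨T, hT.countable, rfl⟩)))).1 hc⟩
  tfae_have 1 ↔ 3 := by
    refine (h0.out 0 2).trans ⟨?_, ?_⟩
    · rintro ⟨h, h1, h2, hc⟩
      exact ⟨h, h1, h2, (countable_iff_lt (Or.inr (Or.inr (Or.inr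
        ⟨{h}, countable_singleton h, rfl⟩)))).2 hc⟩
    · rintro ⟨h, h1, h2, hc⟩
      exact ⟨h, h1, h2, (countable_iff_lt (Or.inr (Or.inr (Or.inr
        ⟨{h}, countable_singleton h, rfl⟩)))).1 hc⟩
  tfae_finish

end Pool.Agent.W_68f289_h51n
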